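import Pool.Agent.helper20.Sz.Sys
import Pool.Agent.helper70.Sz.R1

open scoped symmDiff

namespace Pool.Agent.helper20.Sz

/-! ## Module SZ-R2 (the differential and `Ξ` are rotation invariant) -/
namespace R2
variable {X E : Type} [DecidableEq X] [Fintype E] [DecidableEq E] {K : Cube X E}

/-- rebasing back -/
theorem rr_rr {D D' : Finset E} (h : D ⊆ D' ∨ D' ⊆ D) (ht : D' ≠ Finset.univ) :
    rr Dᶜ (rr D D') = D' := by
  unfold rr
  by_cases hs : D ⊆ D'
  · rw [if_pos hs]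
    have h1 : ¬ Dᶜ ⊆ D' \ D := by
      intro hh
      apply ht
      ext x
      simp only [Finset.mem_univ, iff_true]
      by_cases hx : x ∈ D
      · exact hs hx
      · exact (Finset.mem_sdiff.mp (hh (Finset.mem_compl.mpr hx))).1
    rw [if_neg h1, compl_compl]
    exact Finset.sdiff_union_of_subset hs
  · rw [if_neg hs, if_pos Finset.subset_union_right]
    have h2 : D' ⊆ D := h.resolve_left hs
    ext x
    simp only [Finset.mem_sdiff, Finset.mem_union, Finset.mem_compl]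
    constructor
    · rintro ⟨h3 | h3, h4⟩
      · exact h3
      · exact absurd h3 h4
    · intro h3
      exact ⟨Or.inl h3, fun h4 => h4 (h2 h3)⟩

/-- rebasing preserves the condition that arcs go forward -/
theorem rr_forward {D D' : Finset E} {c : X} (hcmp : D ⊆ D' ∨ D' ⊆ D)
    (h : K.tail c ∈ D ↔ K.head c ∈ D) :
    (K.tail c ∈ rr D D' ∧ K.head c ∉ rr D D') ↔ (K.tail c ∈ D' ∧ K.head c ∉ D') := by
  unfold rr
  by_cases hs : D ⊆ D'
  · rw [if_pos hs]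
    simp only [Finset.mem_sdiff]
    constructor
    · rintro ⟨⟨h1, h2⟩, h3⟩
      exact ⟨h1, fun h4 => h3 ⟨h4, fun h5 => h2 (h.mpr h5)⟩⟩
    · rintro ⟨h1, h2⟩
      have h3 : K.head c ∉ D := fun h4 => h2 (hs h4)
      exact ⟨⟨h1, fun h4 => h3 (h.mp h4)⟩, fun h4 => h2 h4.1⟩
  · rw [if_neg hs]
    have hsub : D' ⊆ D := hcmp.resolve_left hs
    simp only [Finset.mem_union, Finset.mem_compl]
    constructor
    · rintro ⟨h1, h2⟩
      push Not at h2
      have h3 : K.tail c ∈ D := h.mpr h2.2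
      exact ⟨h1.resolve_right (fun h4 => h4 h3), h2.1⟩
    · rintro ⟨h1, h2⟩
      refine ⟨Or.inl h1, ?_⟩
      rintro (h3 | h3)
      · exact h2 h3
      · exact h3 (h.mp (hsub h1))

/-- validity can be tested after rotation -/
theorem valid_rho_iff {u w : Finset X} {𝒟 : Finset (Finset E)} (h : K.Valid u 𝒟) {D : Finset E}
    (hD : D ∈ 𝒟) : K.Valid w (rho D 𝒟) ↔ K.Valid w 𝒟 := by
  constructor
  · intro hw
    have h1 := R1.rho_compl h hD
    have h2 := R1.valid_rho hw h1.1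
    rwa [h1.2] at h2
  · intro hw
    exact R1.valid_rho hw hD

theorem eq_rho {ψ : W X E} (h : K.Supp ψ) (h' : K.Rot ψ) {u w : Finset X}
    {𝒟 : Finset (Finset E)} (hv : K.Valid u 𝒟) {D : Finset E} (hD : D ∈ 𝒟) :
    ψ w (rho D 𝒟) = ψ w 𝒟 := by
  by_cases hw : K.Valid w 𝒟
  · exact h' w 𝒟 D hw hD
  · have h1 : ψ w 𝒟 = 0 := by
      by_contra hne
      exact hw (h w 𝒟 hne)
    have h2 : ψ w (rho D 𝒟) = 0 := by
      by_contra hne
      exact hw ((valid_rho_iff hv hD).mp (h w _ hne))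
    rw [h1, h2]

theorem sum_rho {ψ : W X E} (h : K.Supp ψ) (h' : K.Rot ψ) {u w : Finset X}
    {𝒟 : Finset (Finset E)} (hv : K.Valid u 𝒟) {D : Finset E} (hD : D ∈ 𝒟)
    (hN : ∀ c ∈ u \ w, K.Nsep 𝒟 c)
    [DecidablePred fun D' : Finset E => D' ∉ 𝒟 ∧ ∀ c ∈ u \ w, K.tail c ∈ D' ∧ K.head c ∉ D']
    [DecidablePred fun D' : Finset E =>
      D' ∉ rho D 𝒟 ∧ ∀ c ∈ u \ w, K.tail c ∈ D' ∧ K.head c ∉ D'] :
    ∑ D' ∈ Finset.univ.filter (fun D' : Finset E =>
      D' ∉ rho D 𝒟 ∧ ∀ c ∈ u \ w, K.tail c ∈ D' ∧ K.head c ∉ D'), ψ w (insert D' (rho D 𝒟)) =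
    ∑ D' ∈ Finset.univ.filter (fun D' : Finset E =>
      D' ∉ 𝒟 ∧ ∀ c ∈ u \ w, K.tail c ∈ D' ∧ K.head c ∉ D'), ψ w (insert D' 𝒟) := by
  symm
  refine Finset.sum_bij_ne_zero (fun D' _ _ => rr D D') ?_ ?_ ?_ ?_
  · intro D' hD' hne
    rw [Finset.mem_filter] at hD' ⊢
    have hval := h _ _ hne
    have h1 := R1.rho_insert hval hD hD'.2.1
    refine ⟨Finset.mem_univ _, h1.2, fun c hc => ?_⟩
    exact (rr_forward (hval.chain D (Finset.mem_insert_of_mem hD) D' (Finset.mem_insert_self _ _))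
      (hN c hc D hD)).mpr (hD'.2.2 c hc)
  · intro D1 hD1 hne1 D2 hD2 hne2 heq
    have v1 := h _ _ hne1
    have v2 := h _ _ hne2
    have e1 := rr_rr (v1.chain D (Finset.mem_insert_of_mem hD) D1 (Finset.mem_insert_self _ _))
      (v1.top D1 (Finset.mem_insert_self _ _))
    have e2 := rr_rr (v2.chain D (Finset.mem_insert_of_mem hD) D2 (Finset.mem_insert_self _ _))
      (v2.top D2 (Finset.mem_insert_self _ _))
    have heq' : rr D D1 = rr D D2 := heq
    rw [← e1, ← e2, heq']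
  · intro D2 hD2 hne2
    rw [Finset.mem_filter] at hD2
    have v2 := h _ _ hne2
    have hc := R1.rho_compl hv hD
    have h1 := R1.rho_insert v2 hc.1 hD2.2.1
    rw [hc.2] at h1
    have hmem : Dᶜ ∈ insert D2 (rho D 𝒟) := Finset.mem_insert_of_mem hc.1
    have h2 : ψ w (insert (rr Dᶜ D2) 𝒟) = ψ w (insert D2 (rho D 𝒟)) := by
      rw [← h1.1]
      exact h' w _ _ v2 hmem
    have hcmp := v2.chain Dᶜ hmem D2 (Finset.mem_insert_self _ _)
    have e2 := rr_rr hcmp (v2.top D2 (Finset.mem_insert_self _ _))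
    rw [compl_compl] at e2
    refine ⟨rr Dᶜ D2, ?_, by rw [h2]; exact hne2, e2⟩
    rw [Finset.mem_filter]
    refine ⟨Finset.mem_univ _, h1.2, fun c hc' => ?_⟩
    refine (rr_forward hcmp ?_).mpr (hD2.2.2 c hc')
    have := hN c hc' D hD
    rw [Finset.mem_compl, Finset.mem_compl, this]
  · intro D' hD' hne
    have hval := h _ _ hne
    rw [Finset.mem_filter] at hD'
    have h1 := R1.rho_insert hval hD hD'.2.1
    rw [← h1.1]
    exact (h' w _ _ hval (Finset.mem_insert_of_mem hD)).symm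

theorem del_rot (hK : K.IsCore) (s0 : Bool) (ψ : W X E) (h : K.Supp ψ) (h' : K.Rot ψ) :
    K.Rot (K.del s0 ψ) := by
  classical
  intro u 𝒟 D hv hD
  show K.delF s0 ψ u (rho D 𝒟) = K.delF s0 ψ u 𝒟
  unfold Cube.delF
  refine Finset.sum_congr rfl (fun w hw => ?_)
  by_cases hN : ∀ c ∈ u \ w, K.Nsep 𝒟 c
  · have hN' : ∀ c ∈ u \ w, K.Nsep (rho D 𝒟) c := fun c hc =>
      (R1.nsep_rho hv hD c).mpr (hN c hc)
    rw [if_pos hN, if_pos hN', eq_rho h h' hv hD, sum_rho h h' hv hD hN]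
  · have hN' : ¬ ∀ c ∈ u \ w, K.Nsep (rho D 𝒟) c := fun hh =>
      hN (fun c hc => (R1.nsep_rho hv hD c).mp (hh c hc))
    rw [if_neg hN, if_neg hN']

theorem xi_supp (P : E) (v : Finset X) (s : E → Bool) : K.Supp (K.XiV P v s) := by
  intro u 𝒟 hne
  unfold Cube.XiV at hne
  by_contra hcon
  apply hne
  rw [if_neg]
  intro hx
  exact hcon hx.1

theorem xi_rot_iff (P : E) (v : Finset X) (s : E → Bool) {u : Finset X}
    {𝒟 : Finset (Finset E)} {D : Finset E} (hv : K.Valid u 𝒟) (hD : D ∈ 𝒟) :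
    K.Xi P v s u (rho D 𝒟) ↔ K.Xi P v s u 𝒟 := by
  have hc := R1.rho_compl hv hD
  have hv' := R1.valid_rho hv hD
  constructor
  · rintro ⟨_, h1 | ⟨D2, hD2, h2⟩⟩
    · exact ⟨hv, Or.inr ⟨D, hD, h1⟩⟩
    · unfold rho at hD2
      rw [Finset.mem_insert] at hD2
      rcases hD2 with hD2 | hD2
      · subst hD2
        rw [hc.2] at h2
        exact ⟨hv, Or.inl h2⟩
      · rw [Finset.mem_image] at hD2
        obtain ⟨D', hD', rfl⟩ := hD2
        rw [Finset.mem_erase] at hD'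
        rw [(R1.rho_rr hv hD hD'.2 hD'.1).2] at h2
        exact ⟨hv, Or.inr ⟨D', hD'.2, h2⟩⟩
  · rintro ⟨_, h1 | ⟨D', hD', h2⟩⟩
    · refine ⟨hv', Or.inr ⟨Dᶜ, hc.1, ?_⟩⟩
      rw [hc.2]
      exact h1
    · by_cases he : D' = D
      · subst he
        exact ⟨hv', Or.inl h2⟩
      · have h3 := R1.rho_rr hv hD hD' he
        refine ⟨hv', Or.inr ⟨rr D D', h3.1, ?_⟩⟩
        rw [h3.2]
        exact h2

theorem xi_rot (P : E) (v : Finset X) (s : E → Bool) : K.Rot (K.XiV P v s) := by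
  intro u 𝒟 D hv hD
  unfold Cube.XiV
  have h := xi_rot_iff P v s hv hD
  by_cases hx : K.Xi P v s u 𝒟
  · rw [if_pos hx, if_pos (h.mpr hx)]
  · rw [if_neg hx, if_neg (fun hh => hx (h.mp hh))]

theorem xi_nrm (P : E) (v : Finset X) (s : E → Bool) {u : Finset X} {𝒟 : Finset (Finset E)}
    (hv : K.Valid u 𝒟) (hn : Nrm P 𝒟) : K.Xi P v s u 𝒟 ↔ K.Xi0 P v s u 𝒟 := by
  constructor
  · rintro ⟨_, h1 | ⟨D, hD, h2⟩⟩
    · exact h1
    · exact absurd h2.nrm (R1.not_nrm_rho P hn hD)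
  · intro h1
    exact ⟨hv, Or.inl h1⟩

end R2
end Pool.Agent.helper20.Sz
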